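import Mathlib
import Pool.Agent.H220.F4.Stm

/-!
Lower bound for the logarithm of a Bergman type kernel on the disc (`S_axis`).
-/

set_option autoImplicit false

open MeasureTheory Metric Set Filter Topology Matrix
open scoped ContDiff ComplexOrder

namespace Pool.Agent.H253.F4

open Pool.Agent.H220.F4 Pool.Agent.H805R2 Pool.Agent.H805R2.Gram

/-- partial sums of the exponential series -/
lemma exp_partial (N M : ℕ) (hN : 1 ≤ N) (hM : 4 * N ≤ M) (x : ℝ) (hx : 0 ≤ x) (hx2 : x ≤ 2 * N) :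
    Real.exp x / 2 ≤ ∑ a ∈ Finset.range M, x ^ a / (a.factorial : ℝ) := by
  have h1 : ∀ K, ∑ a ∈ Finset.range K, x ^ a / (a.factorial : ℝ) ≤
      ∑ a ∈ Finset.range M, x ^ a / (a.factorial : ℝ) + (1 / 2) ^ M * Real.exp (2 * x) := by
    intro K
    rcases le_total K M with hK | hK
    · have h2 : ∑ a ∈ Finset.range K, x ^ a / (a.factorial : ℝ) ≤
          ∑ a ∈ Finset.range M, x ^ a / (a.factorial : ℝ) :=
        Finset.sum_le_sum_of_subset_of_nonneg (Finset.range_mono hK)
          (fun i _ _ => by positivity)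
      have : 0 ≤ (1 / 2 : ℝ) ^ M * Real.exp (2 * x) := by positivity
      linarith
    · rw [← Finset.sum_range_add_sum_Ico _ hK]
      gcongr
      calc ∑ a ∈ Finset.Ico M K, x ^ a / (a.factorial : ℝ)
          ≤ ∑ a ∈ Finset.Ico M K, (1 / 2) ^ M * ((2 * x) ^ a / (a.factorial : ℝ)) := by
            refine Finset.sum_le_sum fun a ha => ?_
            have ha' := (Finset.mem_Ico.1 ha).1
            have h3 : (1 : ℝ) ≤ (1 / 2) ^ M * 2 ^ a := by
              have h4 : (2 : ℝ) ^ M ≤ 2 ^ a := pow_le_pow_right₀ (by norm_num) ha'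
              calc (1 : ℝ) = (1 / 2) ^ M * 2 ^ M := by rw [← mul_pow]; norm_num
                _ ≤ _ := by gcongr
            have h5 : 0 ≤ x ^ a / (a.factorial : ℝ) := by positivity
            calc x ^ a / (a.factorial : ℝ) ≤ ((1 / 2) ^ M * 2 ^ a) * (x ^ a / (a.factorial : ℝ)) := by
                  nlinarith
              _ = _ := by rw [mul_pow]; ring
        _ = (1 / 2) ^ M * ∑ a ∈ Finset.Ico M K, (2 * x) ^ a / (a.factorial : ℝ) := by
            rw [Finset.mul_sum]
        _ ≤ (1 / 2) ^ M * ∑ a ∈ Finset.range K, (2 * x) ^ a / (a.factorial : ℝ) := by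
            gcongr
            intro a ha
            exact Finset.mem_range.2 (Finset.mem_Ico.1 ha).2
        _ ≤ (1 / 2) ^ M * Real.exp (2 * x) := by
            gcongr
            exact Real.sum_le_exp_of_nonneg (by positivity) K
  have h2 : Real.exp x ≤ ∑ a ∈ Finset.range M, x ^ a / (a.factorial : ℝ) +
      (1 / 2) ^ M * Real.exp (2 * x) := by
    have h3 := (NormedSpace.expSeries_div_hasSum_exp (x : ℝ)).tendsto_sum_nat
    rw [← Real.exp_eq_exp_ℝ] at h3
    exact le_of_tendsto' h3 h1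
  have h3 : (1 / 2 : ℝ) ^ M * Real.exp (2 * x) ≤ Real.exp x / 2 := by
    have h4 : Real.exp x ≤ 2 ^ (M - 1) := by
      have h5 : (2 : ℝ) ^ (M - 1) = Real.exp ((M - 1 : ℕ) * Real.log 2) := by
        rw [← Real.log_pow, Real.exp_log (by positivity)]
      rw [h5]
      apply Real.exp_le_exp.2
      have h6 : (4 * (N : ℝ)) - 1 ≤ ((M - 1 : ℕ) : ℝ) := by
        have : 4 * N - 1 ≤ M - 1 := by omega
        have h7 : ((4 * N - 1 : ℕ) : ℝ) ≤ ((M - 1 : ℕ) : ℝ) := by exact_mod_cast this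
        have h8 : ((4 * N - 1 : ℕ) : ℝ) = 4 * N - 1 := by
          rw [Nat.cast_sub (by omega)]
          push_cast
          ring
        linarith
      have h7 := Real.log_two_gt_d9
      have h8 : (1 : ℝ) ≤ N := by exact_mod_cast hN
      nlinarith
    have h9 : Real.exp (2 * x) = Real.exp x * Real.exp x := by
      rw [← Real.exp_add]; ring_nf
    have h10 : (1 / 2 : ℝ) ^ M * 2 ^ (M - 1) = 1 / 2 := by
      obtain ⟨k, rfl⟩ : ∃ k, M = k + 1 := ⟨M - 1, by omega⟩
      rw [Nat.add_sub_cancel, pow_succ, mul_right_comm, ← mul_pow]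
      norm_num
    calc (1 / 2 : ℝ) ^ M * Real.exp (2 * x) = ((1 / 2 : ℝ) ^ M * Real.exp x) * Real.exp x := by
          rw [h9]; ring
      _ ≤ ((1 / 2 : ℝ) ^ M * 2 ^ (M - 1)) * Real.exp x := by gcongr
      _ = Real.exp x / 2 := by rw [h10]; ring
  linarith

/-- `∫_𝔻 (1 - |ζ|²) = π/2` -/
lemma int_one_sub : ∫ ζ in ball (0 : ℂ) 1, (1 - ‖ζ‖ ^ 2) = Real.pi / 2 := by
  have h1 : ∫ ζ in ball (0 : ℂ) 1, (1 - ‖ζ‖ ^ 2) =
      ∫ ζ : ℂ, (fun r : ℝ => if r < 1 then 1 - r ^ 2 else 0) ‖ζ‖ := by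
    rw [← integral_indicator measurableSet_ball]
    congr 1
    funext ζ
    simp only [indicator, mem_ball_zero_iff]
  rw [h1, integral_fun_norm_addHaar (volume : Measure ℂ) (fun r : ℝ => if r < 1 then 1 - r ^ 2 else 0)]
  have h2 : ∫ y in Ioi (0 : ℝ), y ^ (Module.finrank ℝ ℂ - 1) • (if y < 1 then 1 - y ^ 2 else 0) =
      ∫ y in (0 : ℝ)..1, (y - y ^ 3) := by
    rw [intervalIntegral.integral_of_le zero_le_one, ← integral_indicator measurableSet_Ioi,
      ← integral_indicator measurableSet_Ioc]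
    congr 1
    funext y
    simp only [indicator, mem_Ioi, mem_Ioc, Complex.finrank_real_complex, smul_eq_mul]
    by_cases h0 : 0 < y
    · rcases lt_trichotomy y 1 with h | h | h
      · simp [h0, h, h.le]
        ring
      · simp [h0, h]
      · simp [h0, not_lt.2 h.le, not_le.2 h]
    · simp [h0]
  rw [h2]
  have h3 : ∫ y in (0 : ℝ)..1, (y - y ^ 3) = 1 / 4 := by
    rw [intervalIntegral.integral_sub (by simp) (by simp)]
    simp
    norm_num
  rw [h3]
  have h4 : volume.real (ball (0 : ℂ) 1) = Real.pi := by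
    rw [Measure.real, Complex.volume_ball]
    simp
  rw [h4, Complex.finrank_real_complex]
  simp
  ring

/-- Jensen for the logarithm -/
lemma jensen_log {ι : Type*} [Fintype ι] (w x : ι → ℝ) (hw : ∀ i, 0 ≤ w i) (hw1 : ∑ i, w i = 1)
    (hx : ∀ i, 0 < x i) : - ∑ i, w i * Real.log (x i) ≤ Real.log (∑ i, w i / x i) := by
  have hc := strictConcaveOn_log_Ioi.concaveOn
  have := hc.le_map_sum (t := Finset.univ) (w := w) (p := fun i => (x i)⁻¹) (fun i _ => hw i) hw1
    (fun i _ => by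
      simp only [mem_Ioi]
      exact inv_pos.2 (hx i))
  simp only [smul_eq_mul, Real.log_inv] at this
  rw [← Finset.sum_neg_distrib]
  refine le_trans (le_of_eq ?_) (this.trans (le_of_eq ?_))
  · exact Finset.sum_congr rfl fun i _ => by ring
  · rfl

theorem s_axis (hwt : S_wt) : S_axis := by
  intro N M β hN hM hβ1 hβ2 n hn hle g hg hg0 hgn
  obtain ⟨w1, w2, w3, w4⟩ := hwt
  have hπ := Real.pi_pos
  have hβ : 0 < β := by linarith
  -- the matrix nd
  have hnd : (nd M β).PosDef := by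
    unfold nd
    refine Matrix.PosDef.diagonal fun a => ?_
    exact_mod_cast w1 β a
  obtain ⟨C, x, h1, h2⟩ := simul_diag (nd M β) n hnd hn.1
  obtain ⟨hC, h3⟩ := det_rel (nd M β) n C x h1 h2
  have hx1 : ∀ i, 1 ≤ x i := by
    intro i
    have e1 := diag_entry n C i
    have e2 := diag_entry (nd M β) C i
    rw [h2, diagonal_apply_eq] at e1
    rw [h1, one_apply_eq] at e2
    have := hle (fun j => C j i)
    rw [← e1, ← e2] at this
    simpa using this
  have hx0 : ∀ i, 0 < x i := fun i => zero_lt_one.trans_le (hx1 i)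
  have hndp : 0 < (nd M β).det.re := (Complex.pos_iff.1 hnd.det_pos).1
  have hlog : Real.log n.det.re - Real.log (nd M β).det.re = ∑ i, Real.log (x i) := by
    rw [h3, ← Complex.ofReal_prod, Complex.re_mul_ofReal,
      Real.log_mul hndp.ne' (Finset.prod_pos fun i _ => hx0 i).ne',
      Real.log_prod fun i _ => (hx0 i).ne']
    ring
  rw [hlog]
  -- the functions
  set E : Fin M → ℂ → ℝ := fun i ζ => ‖∑ a, C a i * ζ ^ (a : ℕ)‖ ^ 2 with hE
  set S : ℂ → ℝ := fun ζ => ∑ i, E i ζ with hS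
  have hEc : ∀ i, Continuous (E i) := by
    intro i
    simp only [hE]
    fun_prop
  have hE0 : ∀ i ζ, 0 ≤ E i ζ := fun i ζ => by simp only [hE]; positivity
  have hint1 : ∀ i, ∫ ζ in ball (0 : ℂ) 1, E i ζ * Real.exp (β * (1 - ‖ζ‖ ^ 2)) = 1 := by
    intro i
    have e2 := diag_entry (nd M β) C i
    rw [h1, one_apply_eq, w4] at e2
    have e3 := (Complex.ofReal_eq_one.1 e2.symm)
    exact e3
  -- S ζ = ∑ |ζ|^{2a} / wt
  have hSeq : ∀ ζ, S ζ = ∑ a : Fin M, ‖ζ‖ ^ (2 * (a : ℕ)) / wt β a := by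
    intro ζ
    have hCC : C * Cᴴ = diagonal fun a : Fin M => (((wt β a)⁻¹ : ℝ) : ℂ) := by
      have k1 : C * (Cᴴ * nd M β) = 1 := mul_eq_one_comm.1 h1
      have k2 : nd M β * diagonal (fun a : Fin M => (((wt β a)⁻¹ : ℝ) : ℂ)) = 1 := by
        unfold nd
        rw [diagonal_mul_diagonal, ← diagonal_one]
        congr 1
        funext a
        rw [← Complex.ofReal_mul, mul_inv_cancel₀ (w1 β a).ne', Complex.ofReal_one]
      calc C * Cᴴ = C * Cᴴ * (nd M β * diagonal (fun a : Fin M => (((wt β a)⁻¹ : ℝ) : ℂ))) := by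
            rw [k2, Matrix.mul_one]
        _ = (C * (Cᴴ * nd M β)) * diagonal (fun a : Fin M => (((wt β a)⁻¹ : ℝ) : ℂ)) := by
            simp only [Matrix.mul_assoc]
        _ = _ := by rw [k1, Matrix.one_mul]
    have key : ((S ζ : ℝ) : ℂ) = ∑ a : Fin M, ∑ b : Fin M, (C * Cᴴ) a b * (ζ ^ (a : ℕ) * star (ζ ^ (b : ℕ))) := by
      simp only [hS, hE]
      push_cast
      have h4 : ∀ i, ((‖∑ a, C a i * ζ ^ (a : ℕ)‖ : ℝ) : ℂ) ^ 2 =
          ∑ a : Fin M, ∑ b : Fin M, (C a i * star (C b i)) * (ζ ^ (a : ℕ) * star (ζ ^ (b : ℕ))) := by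
        intro i
        have : ((‖∑ a, C a i * ζ ^ (a : ℕ)‖ : ℝ) : ℂ) ^ 2 =
            (∑ a, C a i * ζ ^ (a : ℕ)) * star (∑ a, C a i * ζ ^ (a : ℕ)) := by
          rw [Complex.star_def, Complex.mul_conj, Complex.normSq_eq_norm_sq]
          push_cast; ring
        rw [this, star_sum, Finset.sum_mul_sum]
        refine Finset.sum_congr rfl fun a _ => Finset.sum_congr rfl fun b _ => ?_
        rw [star_mul']
        ring
      rw [Finset.sum_congr rfl fun i _ => h4 i, Finset.sum_comm]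
      refine Finset.sum_congr rfl fun a _ => ?_
      rw [Finset.sum_comm]
      refine Finset.sum_congr rfl fun b _ => ?_
      rw [← Finset.sum_mul]
      congr 1
    rw [hCC] at key
    have key2 : ∑ a : Fin M, ∑ b : Fin M, (diagonal fun a : Fin M => (((wt β a)⁻¹ : ℝ) : ℂ)) a b *
        (ζ ^ (a : ℕ) * star (ζ ^ (b : ℕ))) =
        ((∑ a : Fin M, ‖ζ‖ ^ (2 * (a : ℕ)) / wt β a : ℝ) : ℂ) := by
      push_cast
      refine Finset.sum_congr rfl fun a _ => ?_
      rw [Finset.sum_eq_single a]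
      · rw [diagonal_apply_eq, Complex.star_def, Complex.mul_conj, Complex.normSq_eq_norm_sq, norm_pow]
        push_cast
        rw [← pow_mul, mul_comm (a : ℕ) 2]
        field_simp
      · intro b _ hb
        rw [diagonal_apply_ne _ (Ne.symm hb), zero_mul]
      · intro h; exact absurd (Finset.mem_univ _) h
    rw [key2] at key
    exact_mod_cast key
  -- lower bound for S
  have hSlow : ∀ ζ ∈ ball (0 : ℂ) 1,
      β / (2 * Real.pi) * Real.exp (-(β * (1 - ‖ζ‖ ^ 2))) ≤ S ζ := by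
    intro ζ hζ
    rw [mem_ball_zero_iff] at hζ
    have hn0 := norm_nonneg ζ
    rw [hSeq]
    have hz2 : ‖ζ‖ ^ 2 ≤ 1 := pow_le_one₀ hn0 hζ.le
    have h4 := exp_partial N M hN hM (β * ‖ζ‖ ^ 2) (by positivity)
      ((mul_le_of_le_one_right hβ.le hz2).trans hβ2)
    have h5 : β / Real.pi * Real.exp (-β) * ∑ a ∈ Finset.range M, (β * ‖ζ‖ ^ 2) ^ a / (a.factorial : ℝ) ≤
        ∑ a : Fin M, ‖ζ‖ ^ (2 * (a : ℕ)) / wt β a := by
      rw [← Fin.sum_univ_eq_sum_range (fun a => (β * ‖ζ‖ ^ 2) ^ a / (a.factorial : ℝ)) M, Finset.mul_sum]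
      refine Finset.sum_le_sum fun a _ => ?_
      have h6 := w3 β a hβ
      have h7 := w1 β a
      have h8 : ‖ζ‖ ^ (2 * (a : ℕ)) / (Real.pi * Real.exp β * ((a : ℕ).factorial : ℝ) / β ^ ((a : ℕ) + 1)) ≤
          ‖ζ‖ ^ (2 * (a : ℕ)) / wt β a := by
        gcongr
      refine le_trans (le_of_eq ?_) h8
      rw [Real.exp_neg, mul_pow, ← pow_mul, pow_succ]
      field_simp
    refine le_trans ?_ h5
    have h9 : 0 ≤ β / Real.pi * Real.exp (-β) := by positivity
    calc β / (2 * Real.pi) * Real.exp (-(β * (1 - ‖ζ‖ ^ 2)))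
        = β / Real.pi * Real.exp (-β) * (Real.exp (β * ‖ζ‖ ^ 2) / 2) := by
          have : Real.exp (-(β * (1 - ‖ζ‖ ^ 2))) = Real.exp (-β) * Real.exp (β * ‖ζ‖ ^ 2) := by
            rw [← Real.exp_add]; ring_nf
          rw [this]
          field_simp
      _ ≤ _ := mul_le_mul_of_nonneg_left h4 h9
  have hSpos : ∀ ζ ∈ ball (0 : ℂ) 1, 0 < S ζ := fun ζ hζ =>
    lt_of_lt_of_le (by positivity) (hSlow ζ hζ)
  -- g dominates the kernel of n
  have hgE : ∀ ζ, ∑ i, E i ζ / x i ≤ g ζ := by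
    intro ζ
    set D : Matrix (Fin M) (Fin M) ℂ := C * diagonal fun i => (((Real.sqrt (x i))⁻¹ : ℝ) : ℂ) with hD
    have hDn : Dᴴ * n * D = 1 := by
      rw [hD, conjTranspose_mul, diagonal_conjTranspose]
      calc diagonal (star fun i => (((Real.sqrt (x i))⁻¹ : ℝ) : ℂ)) * Cᴴ * n *
            (C * diagonal fun i => (((Real.sqrt (x i))⁻¹ : ℝ) : ℂ))
          = diagonal (star fun i => (((Real.sqrt (x i))⁻¹ : ℝ) : ℂ)) * (Cᴴ * n * C) *
            (diagonal fun i => (((Real.sqrt (x i))⁻¹ : ℝ) : ℂ)) := by simp only [Matrix.mul_assoc]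
        _ = 1 := by
          rw [h2, diagonal_mul_diagonal, diagonal_mul_diagonal, ← diagonal_one]
          congr 1
          funext i
          simp only [Pi.star_apply, Complex.star_def, Complex.conj_ofReal]
          rw [← Complex.ofReal_mul, ← Complex.ofReal_mul]
          have h5 : Real.sqrt (x i) * Real.sqrt (x i) = x i := Real.mul_self_sqrt (hx0 i).le
          have h6 : 0 < Real.sqrt (x i) := Real.sqrt_pos.2 (hx0 i)
          have h7 : (Real.sqrt (x i))⁻¹ * x i * (Real.sqrt (x i))⁻¹ = 1 := by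
            field_simp
            nlinarith
          rw [h7, Complex.ofReal_one]
    have h4 := bergman_pointwise n D hDn (fun a : Fin M => ζ ^ (a : ℕ)) 1 (g ζ) (hg0 ζ).le
      (fun c => by rw [mul_one]; exact hgn ζ c)
    rw [mul_one] at h4
    refine le_trans (le_of_eq ?_) h4
    refine Finset.sum_congr rfl fun i _ => ?_
    have h5 : ∑ j : Fin M, D j i * ζ ^ (j : ℕ) =
        (((Real.sqrt (x i))⁻¹ : ℝ) : ℂ) * ∑ j : Fin M, C j i * ζ ^ (j : ℕ) := by
      rw [Finset.mul_sum]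
      refine Finset.sum_congr rfl fun j _ => ?_
      rw [hD, mul_diagonal]
      ring
    rw [h5, norm_mul, mul_pow, Complex.norm_real, Real.norm_eq_abs, sq_abs, inv_pow,
      Real.sq_sqrt (hx0 i).le]
    simp only [hE]
    rw [div_eq_mul_inv, mul_comm]
  -- the pointwise inequality
  have hpt : ∀ ζ ∈ ball (0 : ℂ) 1, -(β * (1 - ‖ζ‖ ^ 2)) -
      2 * Real.pi / β * ∑ i, (E i ζ * Real.exp (β * (1 - ‖ζ‖ ^ 2))) * Real.log (x i) ≤
        Real.log (g ζ) := by
    intro ζ hζ
    have hS0 := hSpos ζ hζ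
    have hl := hSlow ζ hζ
    have j1 := jensen_log (fun i => E i ζ / S ζ) x (fun i => div_nonneg (hE0 i ζ) hS0.le)
      (by rw [← Finset.sum_div]; exact div_self hS0.ne') hx0
    have j2 : ∑ i, E i ζ / S ζ / x i = (∑ i, E i ζ / x i) / S ζ := by
      rw [Finset.sum_div]
      exact Finset.sum_congr rfl fun i _ => by ring
    rw [j2] at j1
    have hgp : 0 < ∑ i, E i ζ / x i := by
      have h5 : 0 ≤ ∑ i, E i ζ / x i := Finset.sum_nonneg fun i _ => div_nonneg (hE0 i ζ) (hx0 i).le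
      rcases h5.lt_or_eq with h6 | h6
      · exact h6
      · exfalso
        have h7 := (Finset.sum_eq_zero_iff_of_nonneg
          (fun i _ => div_nonneg (hE0 i ζ) (hx0 i).le)).1 h6.symm
        have h8 : S ζ = 0 := by
          simp only [hS]
          refine Finset.sum_eq_zero fun i hi => ?_
          have := h7 i hi
          rw [div_eq_zero_iff] at this
          rcases this with h | h
          · exact h
          · exact absurd h (hx0 i).ne'
        exact hS0.ne' h8
    rw [Real.log_div hgp.ne' hS0.ne'] at j1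
    have j3 : Real.log (∑ i, E i ζ / x i) ≤ Real.log (g ζ) := Real.log_le_log hgp (hgE ζ)
    have j4 : -(β * (1 - ‖ζ‖ ^ 2)) ≤ Real.log (S ζ) := by
      rw [Real.le_log_iff_exp_le hS0]
      refine le_trans ?_ hl
      have : 1 ≤ β / (2 * Real.pi) := by rw [le_div_iff₀ (by positivity)]; linarith
      have h6 := Real.exp_pos (-(β * (1 - ‖ζ‖ ^ 2)))
      nlinarith
    have j5 : ∑ i, E i ζ / S ζ * Real.log (x i) ≤
        2 * Real.pi / β * ∑ i, (E i ζ * Real.exp (β * (1 - ‖ζ‖ ^ 2))) * Real.log (x i) := by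
      rw [Finset.mul_sum]
      refine Finset.sum_le_sum fun i _ => ?_
      have h6 : 0 ≤ Real.log (x i) := Real.log_nonneg (hx1 i)
      have h7 : (S ζ)⁻¹ ≤ 2 * Real.pi / β * Real.exp (β * (1 - ‖ζ‖ ^ 2)) := by
        have h8 := inv_anti₀ (by positivity) hl
        refine h8.trans (le_of_eq ?_)
        rw [mul_inv, Real.exp_neg, inv_inv, inv_div]
      have h9 := mul_le_mul_of_nonneg_left h7 (mul_nonneg (hE0 i ζ) h6)
      refine le_trans (le_of_eq ?_) (h9.trans (le_of_eq ?_)) <;> ring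
    linarith
  -- integration
  have hcont1 : Continuous fun ζ : ℂ => -(β * (1 - ‖ζ‖ ^ 2)) := by fun_prop
  have hcont2 : ∀ i, Continuous fun ζ : ℂ => E i ζ * Real.exp (β * (1 - ‖ζ‖ ^ 2)) := by
    intro i
    have := hEc i
    fun_prop
  have hio : ∀ f : ℂ → ℝ, Continuous f → IntegrableOn f (ball (0 : ℂ) 1) := fun f hf =>
    (hf.continuousOn.integrableOn_compact (isCompact_closedBall 0 1)).mono_set ball_subset_closedBall
  have hlg : Continuous fun ζ => Real.log (g ζ) := hg.log fun ζ => (hg0 ζ).ne'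
  have hmain := setIntegral_mono_on (μ := volume) (s := ball (0 : ℂ) 1)
    (f := fun ζ => -(β * (1 - ‖ζ‖ ^ 2)) -
      2 * Real.pi / β * ∑ i, (E i ζ * Real.exp (β * (1 - ‖ζ‖ ^ 2))) * Real.log (x i))
    (g := fun ζ => Real.log (g ζ)) (hio _ (by fun_prop)) (hio _ hlg) measurableSet_ball hpt
  refine le_trans (le_of_eq ?_) hmain
  have hi3 : ∀ i, IntegrableOn (fun ζ => (E i ζ * Real.exp (β * (1 - ‖ζ‖ ^ 2))) * Real.log (x i))
      (ball (0 : ℂ) 1) := fun i => hio _ ((hcont2 i).mul continuous_const)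
  rw [integral_sub (hio _ hcont1) (hio _ (by fun_prop)), integral_const_mul,
    integral_finsetSum _ fun i _ => hi3 i, integral_neg,
    integral_const_mul, int_one_sub]
  have e1 : ∀ i, ∫ ζ in ball (0 : ℂ) 1, (E i ζ * Real.exp (β * (1 - ‖ζ‖ ^ 2))) * Real.log (x i) =
      Real.log (x i) := by
    intro i
    rw [integral_mul_const, hint1, one_mul]
  rw [Finset.sum_congr rfl fun i _ => e1 i]
  ring

end Pool.Agent.H253.F4
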